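import Mathlib

set_option autoImplicit false

namespace Pool.Agent.Results.MP_f0f309_al.Counterexample

open Classical in
/-- The GIM determined by the linear ordering `r` (`r i j` means `i ≺ j`). -/
noncomputable def gim {n : ℕ} (B : Matrix (Fin n) (Fin n) ℤ) (r : Fin n → Fin n → Prop) :
    Matrix (Fin n) (Fin n) ℤ :=
  fun i j => if i = j then 2 else if r i j then B i j else -B i j

/-- `B D` is skew-symmetric for a diagonal matrix `D` with positive integer entries. -/
def SkewSymmetrizable {n : ℕ} (B : Matrix (Fin n) (Fin n) ℤ) : Prop :=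
  ∃ d : Fin n → ℤ, (∀ i, 0 < d i) ∧ (B * Matrix.diagonal d).transpose = -(B * Matrix.diagonal d)

/-- A chordless cycle of length `m + 3`; indices are read modulo `m + 3`. -/
def Chordless {n m : ℕ} (B : Matrix (Fin n) (Fin n) ℤ) (c : Fin (m + 3) → Fin n) : Prop :=
  Function.Injective c ∧ ∀ j k, j ≠ k → (B (c j) (c k) ≠ 0 ↔ j - k = 1 ∨ j - k = -1)

/-- All entries `b_{i_j, i_{j+1}}` along the cycle have the same sign. -/
def Oriented {n m : ℕ} (B : Matrix (Fin n) (Fin n) ℤ) (c : Fin (m + 3) → Fin n) : Prop :=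
  (∀ j, 0 < B (c j) (c (j + 1))) ∨ (∀ j, B (c j) (c (j + 1)) < 0)

/-- The counterexample, a skew-symmetric `9 × 9` matrix. -/
def B : Matrix (Fin 9) (Fin 9) ℤ :=
  !![0, 1, 1, 1, 1, -1, -1, -1, -1;
    -1, 0, 1, 1, -1, 1, -1, -1, 1;
    -1, -1, 0, 0, 1, 1, 1, -1, 0;
    -1, -1, 0, 0, 0, 0, 1, 1, 0;
    -1, 1, -1, 0, 0, -1, 0, 1, 1;
    1, -1, -1, 0, 1, 0, 0, 1, -1;
    1, 1, -1, -1, 0, 0, 0, 1, -1;
    1, 1, 1, -1, -1, -1, -1, 0, 1;
    1, -1, 0, 0, -1, 1, 1, -1, 0]

lemma skew : ∀ i j, B j i = -B i j := by decide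

lemma diag : ∀ i, B i i = 0 := by decide

lemma tri (r : Fin 9 → Fin 9 → Prop) [IsStrictTotalOrder (Fin 9) r]
    (h : ∀ (m : ℕ) (c : Fin (m + 3) → Fin 9), Chordless B c → Oriented B c →
      ¬ Even {j | 0 < gim B r (c j) (c (j + 1))}.ncard)
    (a b c : Fin 9) (h1 : B a b = 1) (h2 : B b c = 1) (h3 : B c a = 1) :
    (r b a ∧ r c b) ∨ (r c b ∧ r a c) ∨ (r a c ∧ r b a) := by
  have n1 : a ≠ b := by rintro rfl; simp [diag] at h1
  have n2 : b ≠ c := by rintro rfl; simp [diag] at h2
  have n3 : c ≠ a := by rintro rfl; simp [diag] at h3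
  have h4 := h 0 ![a, b, c]
    ⟨by
      intro i j
      fin_cases i <;> fin_cases j <;> simp [n1, n2, n3, n1.symm, n2.symm, n3.symm],
     by
      intro i j
      have := skew a b
      have := skew b c
      have := skew c a
      fin_cases i <;> fin_cases j <;> simp [*] <;> decide⟩
    (Or.inl (by intro i; fin_cases i <;> simp [*]))
  have e : ∀ x y, x ≠ y → B x y = 1 → (0 < gim B r x y ↔ r x y) := by
    intro x y hxy h
    unfold gim
    rw [if_neg hxy, h]
    split_ifs with hr <;> simp [hr]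
  have t : ∀ x y, x ≠ y → (r y x ↔ ¬ r x y) := fun x y hxy =>
    ⟨fun h => asymm h, fun h => (trichotomous_of r x y).elim (fun h' => (h h').elim)
      (fun h' => h'.elim (fun h' => (hxy h').elim) id)⟩
  rw [t a b n1, t b c n2, t c a n3]
  have hS : ∀ S : Set (Fin 3), S.ncard = 2 → (∀ j, j ∈ S ↔ ![r a b, r b c, r c a] j) → False := by
    intro S hS hj
    refine h4 ?_
    rw [show {j : Fin (0 + 3) | 0 < gim B r (![a, b, c] j) (![a, b, c] (j + 1))} = S from ?_, hS]
    · exact even_two
    · ext j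
      rw [hj]
      fin_cases j
      exacts [e a b n1 h1, e b c n2 h2, e c a n3 h3]
  by_cases p1 : r a b <;> by_cases p2 : r b c <;> by_cases p3 : r c a <;> simp only
    [p1, p2, p3, not_true, not_false_iff, and_true, and_false, true_or, or_true, or_false]
  · exact irrefl_of r a (_root_.trans p1 (_root_.trans p2 p3))
  · exact hS {0, 1} (Set.ncard_pair (by decide)) (by intro j; fin_cases j <;> simp [*])
  · exact hS {0, 2} (Set.ncard_pair (by decide)) (by intro j; fin_cases j <;> simp [*])
  · exact hS {1, 2} (Set.ncard_pair (by decide)) (by intro j; fin_cases j <;> simp [*])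

/-- For the skew-symmetric matrix `B`, every linear ordering leaves an oriented chordless cycle
with an even number of positive entries `a_{i_j, i_{j+1}}`. -/
theorem result : SkewSymmetrizable B ∧
    ∀ r : Fin 9 → Fin 9 → Prop, IsStrictTotalOrder (Fin 9) r →
      ∃ (m : ℕ) (c : Fin (m + 3) → Fin 9), Chordless B c ∧ Oriented B c ∧
        Even {j | 0 < gim B r (c j) (c (j + 1))}.ncard := by
  refine ⟨⟨1, fun _ => one_pos, ?_⟩, fun r hr => ?_⟩
  · ext i j
    simp [skew i j]
  by_contra h
  simp only [not_exists, not_and] at h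
  let ρ : Fin 9 → ℕ := fun i => {j | r j i}.ncard
  have hρ : ∀ i j, r i j → ρ i < ρ j := fun i j hij =>
    Set.ncard_lt_ncard ⟨fun k hk => _root_.trans hk hij, fun h => irrefl_of r i (h hij)⟩
  have key : ∀ a b c, B a b = 1 → B b c = 1 → B c a = 1 →
      (ρ b < ρ a ∧ ρ c < ρ b) ∨ (ρ c < ρ b ∧ ρ a < ρ c) ∨ (ρ a < ρ c ∧ ρ b < ρ a) :=
    fun a b c h1 h2 h3 => (tri r h a b c h1 h2 h3).imp (And.imp (hρ _ _) (hρ _ _))
      (Or.imp (And.imp (hρ _ _) (hρ _ _)) (And.imp (hρ _ _) (hρ _ _)))
  have h015 := key 0 1 5 (by decide) (by decide) (by decide)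
  have h018 := key 0 1 8 (by decide) (by decide) (by decide)
  have h025 := key 0 2 5 (by decide) (by decide) (by decide)
  have h026 := key 0 2 6 (by decide) (by decide) (by decide)
  have h036 := key 0 3 6 (by decide) (by decide) (by decide)
  have h037 := key 0 3 7 (by decide) (by decide) (by decide)
  have h047 := key 0 4 7 (by decide) (by decide) (by decide)
  have h048 := key 0 4 8 (by decide) (by decide) (by decide)
  have h124 := key 1 2 4 (by decide) (by decide) (by decide)
  have h126 := key 1 2 6 (by decide) (by decide) (by decide)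
  have h136 := key 1 3 6 (by decide) (by decide) (by decide)
  have h137 := key 1 3 7 (by decide) (by decide) (by decide)
  have h154 := key 1 5 4 (by decide) (by decide) (by decide)
  have h157 := key 1 5 7 (by decide) (by decide) (by decide)
  have h186 := key 1 8 6 (by decide) (by decide) (by decide)
  have h247 := key 2 4 7 (by decide) (by decide) (by decide)
  have h257 := key 2 5 7 (by decide) (by decide) (by decide)
  have h267 := key 2 6 7 (by decide) (by decide) (by decide)
  have h485 := key 4 8 5 (by decide) (by decide) (by decide)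
  have h578 := key 5 7 8 (by decide) (by decide) (by decide)
  have h678 := key 6 7 8 (by decide) (by decide) (by decide)
  generalize ρ 0 = x0, ρ 1 = x1, ρ 2 = x2, ρ 3 = x3, ρ 4 = x4, ρ 5 = x5, ρ 6 = x6, ρ 7 = x7,
    ρ 8 = x8 at *
  omega

end Pool.Agent.Results.MP_f0f309_al.Counterexample
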